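import Pool.Agent.P8H99.CT.Fin
import Pool.Agent.P8H88.EKR.PE

/-!
# Pairwise cross `t`-intersecting families of subspaces: all parameters

For all `n ≥ t ≥ 1`, `m ≥ 2` and every finite field with `q` elements: the maximum of the sum of
the sizes of `m` non-empty pairwise cross `t`-intersecting families of subspaces of an
`n`-dimensional space is `max (S + (m - 1)) (m * M + z)`. Here `S` and `M` are the numbers of
subspaces of dimension at least `t` and at least `⌈(n + t) / 2⌉`, `z = 0` if `n + t` is even, and
`z = max [n, d] (m * [n - 1, d])` if `n + t = 2 d + 1`, with Gaussian binomial coefficients.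
-/

set_option autoImplicit false

namespace Pool.Agent.Results.MP_f86d1f_co.AllParameters

open Module Finset Pool.Agent.V11152.CS Pool.Agent.P8H99.CT

variable {K V : Type} [Field K] [Finite K] [AddCommGroup V] [Module K V] [Module.Finite K V]

/-- the three constructions have pairwise cross `t`-intersecting members -/
lemma inf_dim (U W H : Submodule K V) (hU : U ≤ H) (hW : W ≤ H) :
    finrank K U + finrank K W ≤ finrank K H + finrank K (U ⊓ W : Submodule K V) := by
  have h1 := Submodule.finrank_sup_add_finrank_inf_eq U W
  have h2 := Submodule.finrank_mono (sup_le hU hW)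
  omega

/-- the number of `d`-dimensional subspaces of a subspace `H` -/
lemma card_in (H : Submodule K V) (d : ℕ) :
    ({U : Submodule K V | finrank K U = d ∧ U ≤ H}).ncard = NS K H d := by
  have h0 : Finite (Submodule K V) := finSub
  have h0' : Finite (Submodule K H) := finSub
  apply le_antisymm
  · unfold NS
    apply Set.ncard_le_ncard_of_injOn (fun C : Submodule K V => C.comap H.subtype)
    · intro C hC
      show finrank K (C.comap H.subtype) = d
      rw [(Submodule.comapSubtypeEquivOfLe hC.2).finrank_eq]
      exact hC.1
    · intro C hC D hD h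
      have h2 := congrArg (Submodule.map H.subtype) h
      simp only [Submodule.map_comap_subtype] at h2
      rw [inf_eq_right.2 hC.2, inf_eq_right.2 hD.2] at h2
      exact h2
  · unfold NS
    apply Set.ncard_le_ncard_of_injOn (fun C : Submodule K H => C.map H.subtype)
    · intro C hC
      refine ⟨?_, Submodule.map_subtype_le H C⟩
      rw [Submodule.finrank_map_subtype_eq]
      exact hC
    · intro C _ D _ h
      exact Submodule.map_injective_of_injective H.injective_subtype h

/-- **The maximum of the sum of the sizes of pairwise cross `t`-intersecting families.** -/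
theorem result (K V : Type) [Field K] [Finite K] [AddCommGroup V] [Module K V]
    [Module.Finite K V] (n t m q S M z : ℕ) (hV : finrank K V = n) (hq : q = Nat.card K)
    (ht : 1 ≤ t) (htn : t ≤ n) (hm : 2 ≤ m)
    (hS : S = ∑ d ∈ Icc t n, gauss q n d)
    (hM : M = ∑ d ∈ Icc ((n + t + 1) / 2) n, gauss q n d)
    (hz : z = if Even (n + t) then 0 else
      max (gauss q n ((n + t) / 2)) (m * gauss q (n - 1) ((n + t) / 2))) :
    IsGreatest {s : ℕ | ∃ A : Fin m → Set (Submodule K V), (∀ i, (A i).Nonempty) ∧
      (∀ i j, i ≠ j → ∀ U ∈ A i, ∀ W ∈ A j, t ≤ finrank K (U ⊓ W : Submodule K V)) ∧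
      s = ∑ i, (A i).ncard}
      (max (S + (m - 1)) (m * M + z)) := by
  classical
  have h0 : Finite (Submodule K V) := finSub
  have hgs : ∀ a, ({U : Submodule K V | a ≤ finrank K U}).ncard = ∑ d ∈ Icc a n, gauss q n d := by
    intro a
    rw [card_ge, hV]
    apply Finset.sum_congr rfl
    intro d hd
    rw [mem_Icc] at hd
    rw [NS_eq d (by omega), hV, hq]
  obtain ⟨r, rfl⟩ : ∃ r, m = r + 1 := ⟨m - 1, by omega⟩
  constructor
  · -- the constructions
    have c1 : ∃ A : Fin (r + 1) → Set (Submodule K V), (∀ i, (A i).Nonempty) ∧
        (∀ i j, i ≠ j → ∀ U ∈ A i, ∀ W ∈ A j, t ≤ finrank K (U ⊓ W : Submodule K V)) ∧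
        S + (r + 1 - 1) = ∑ i, (A i).ncard := by
      refine ⟨fun i => if i = 0 then {U : Submodule K V | t ≤ finrank K U} else {⊤},
        ?_, ?_, ?_⟩
      · intro i
        refine ⟨⊤, ?_⟩
        dsimp only
        split_ifs
        · simp only [Set.mem_ofPred_eq, finrank_top]
          omega
        · exact Set.mem_singleton _
      · intro i j hij U hU W hW
        dsimp only at hU hW
        split_ifs at hU hW with h1 h2 h2
        · exact absurd (h1.trans h2.symm) hij
        · rw [Set.mem_singleton_iff] at hW
          rw [hW, inf_top_eq]
          exact hU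
        · rw [Set.mem_singleton_iff] at hU
          rw [hU, top_inf_eq]
          exact hW
        · rw [Set.mem_singleton_iff] at hU hW
          rw [hU, hW, inf_top_eq, finrank_top]
          omega
      · rw [Fin.sum_univ_succ]
        have h6 : ∀ i : Fin r, (if i.succ = 0 then {U : Submodule K V | t ≤ finrank K U}
            else {⊤} : Set (Submodule K V)).ncard = 1 := by
          intro i
          rw [if_neg (Fin.succ_ne_zero i), Set.ncard_singleton]
        have h7 : (if (0 : Fin (r + 1)) = 0 then {U : Submodule K V | t ≤ finrank K U}
            else {⊤} : Set (Submodule K V)).ncard = S := by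
          rw [if_pos rfl, hgs, hS]
        rw [Finset.sum_congr rfl (fun i _ => h6 i)]
        dsimp only
        rw [h7, Finset.sum_const, card_univ, Fintype.card_fin, smul_eq_mul, mul_one,
          Nat.add_sub_cancel]
    have c2 : ∃ A : Fin (r + 1) → Set (Submodule K V), (∀ i, (A i).Nonempty) ∧
        (∀ i j, i ≠ j → ∀ U ∈ A i, ∀ W ∈ A j, t ≤ finrank K (U ⊓ W : Submodule K V)) ∧
        (r + 1) * M + (if Even (n + t) then 0 else gauss q n ((n + t) / 2)) =
          ∑ i, (A i).ncard := by
      refine ⟨fun i => if i = 0 then {U : Submodule K V | (n + t) / 2 ≤ finrank K U} else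
        {U : Submodule K V | (n + t + 1) / 2 ≤ finrank K U}, ?_, ?_, ?_⟩
      · intro i
        refine ⟨⊤, ?_⟩
        dsimp only
        split_ifs
        · simp only [Set.mem_ofPred_eq, finrank_top]
          omega
        · simp only [Set.mem_ofPred_eq, finrank_top]
          omega
      · intro i j hij U hU W hW
        have h1 := Submodule.finrank_sup_add_finrank_inf_eq U W
        have h2 := Submodule.finrank_le (U ⊔ W)
        dsimp only at hU hW
        split_ifs at hU hW with h3 h4 h4
        · exact absurd (h3.trans h4.symm) hij
        · simp only [Set.mem_ofPred_eq] at hU hW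
          omega
        · simp only [Set.mem_ofPred_eq] at hU hW
          omega
        · simp only [Set.mem_ofPred_eq] at hU hW
          omega
      · rw [Fin.sum_univ_succ]
        have h6 : ∀ i : Fin r, (if i.succ = 0 then {U : Submodule K V | (n + t) / 2 ≤ finrank K U}
            else {U : Submodule K V | (n + t + 1) / 2 ≤ finrank K U} :
              Set (Submodule K V)).ncard = M := by
          intro i
          rw [if_neg (Fin.succ_ne_zero i), hgs, hM]
        have h7 : (if (0 : Fin (r + 1)) = 0 then {U : Submodule K V | (n + t) / 2 ≤ finrank K U}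
            else {U : Submodule K V | (n + t + 1) / 2 ≤ finrank K U} :
              Set (Submodule K V)).ncard =
              (if Even (n + t) then 0 else gauss q n ((n + t) / 2)) + M := by
          rw [if_pos rfl, hgs, hM]
          by_cases he : Even (n + t)
          · rw [if_pos he, zero_add]
            obtain ⟨x, hx⟩ := he
            have h8 : (n + t) / 2 = (n + t + 1) / 2 := by omega
            rw [h8]
          · rw [if_neg he]
            rw [Nat.not_even_iff_odd] at he
            obtain ⟨x, hx⟩ := he
            have h8 : (n + t + 1) / 2 = (n + t) / 2 + 1 := by omega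
            have h9 : Icc ((n + t) / 2) n = insert ((n + t) / 2) (Icc ((n + t) / 2 + 1) n) := by
              ext d
              rw [mem_insert, mem_Icc, mem_Icc]
              omega
            rw [h8, h9, Finset.sum_insert (by rw [mem_Icc]; omega)]
        rw [Finset.sum_congr rfl (fun i _ => h6 i)]
        dsimp only
        rw [h7, Finset.sum_const, card_univ, Fintype.card_fin, smul_eq_mul]
        ring
    by_cases he : Even (n + t)
    · rw [if_pos he] at hz c2
      rw [hz]
      rcases le_total (S + (r + 1 - 1)) ((r + 1) * M + 0) with h | h
      · rw [max_eq_right h]; exact c2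
      · rw [max_eq_left h]; exact c1
    · rw [if_neg he] at hz c2
      have c3 : ∃ A : Fin (r + 1) → Set (Submodule K V), (∀ i, (A i).Nonempty) ∧
          (∀ i j, i ≠ j → ∀ U ∈ A i, ∀ W ∈ A j, t ≤ finrank K (U ⊓ W : Submodule K V)) ∧
          (r + 1) * M + (r + 1) * gauss q (n - 1) ((n + t) / 2) = ∑ i, (A i).ncard := by
        rw [Nat.not_even_iff_odd] at he
        obtain ⟨d, hd⟩ := he
        have hd2 : (n + t) / 2 = d := by omega
        have hd3 : (n + t + 1) / 2 = d + 1 := by omega
        rw [hd3] at hM
        rw [hd2]
        obtain ⟨H, hH⟩ := exists_dim (K := K) (V := V) (n - 1) (by omega)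
        refine ⟨fun _ => {U : Submodule K V | d + 1 ≤ finrank K U} ∪
          {U : Submodule K V | finrank K U = d ∧ U ≤ H}, ?_, ?_, ?_⟩
        · intro i
          refine ⟨⊤, Or.inl ?_⟩
          simp only [Set.mem_ofPred_eq, finrank_top]
          omega
        · intro i j hij U hU W hW
          have h1 := Submodule.finrank_sup_add_finrank_inf_eq U W
          have h2 := Submodule.finrank_le (U ⊔ W)
          rcases hU with hU | hU <;> rcases hW with hW | hW <;>
            simp only [Set.mem_ofPred_eq] at hU hW
          · omega
          · omega
          · omega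
          · have h3 := inf_dim U W H hU.2 hW.2
            omega
        · have h4 : ({U : Submodule K V | d + 1 ≤ finrank K U} ∪
              {U : Submodule K V | finrank K U = d ∧ U ≤ H}).ncard =
              M + gauss q (n - 1) d := by
            rw [Set.ncard_union_eq _ (Set.toFinite _) (Set.toFinite _), hgs, card_in,
              NS_eq d (by omega), hH, hM, hq]
            rw [Set.disjoint_left]
            intro U hU hU2
            simp only [Set.mem_ofPred_eq] at hU hU2
            omega
          rw [Finset.sum_const, card_univ, Fintype.card_fin, smul_eq_mul, h4]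
          ring
      rw [hz]
      rcases le_total (gauss q n ((n + t) / 2)) ((r + 1) * gauss q (n - 1) ((n + t) / 2)) with
        h1 | h1
      · rw [max_eq_right h1]
        rcases le_total (S + (r + 1 - 1))
          ((r + 1) * M + (r + 1) * gauss q (n - 1) ((n + t) / 2)) with h | h
        · rw [max_eq_right h]; exact c3
        · rw [max_eq_left h]; exact c1
      · rw [max_eq_left h1]
        rcases le_total (S + (r + 1 - 1)) ((r + 1) * M + gauss q n ((n + t) / 2)) with h | h
        · rw [max_eq_right h]; exact c2
        · rw [max_eq_left h]; exact c1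
  · -- the upper bound
    rintro s ⟨A, hne, hA, rfl⟩
    rcases Nat.lt_or_ge 1 t with ht2 | ht1
    · have h1 := upper2 lemE (r + 1) t n hV hm ht2 htn A hne hA
      have e1 : ∀ N j, G K N j = ((gauss q N j : ℕ) : ℝ) := by
        intro N j
        unfold G
        rw [hq]
      simp only [e1] at h1
      have e2 : ((S : ℕ) : ℝ) = ∑ d ∈ Icc t n, (gauss q n d : ℝ) := by
        rw [hS]; push_cast; rfl
      have e3 : ((M : ℕ) : ℝ) = ∑ d ∈ Icc ((n + t + 1) / 2) n, (gauss q n d : ℝ) := by
        rw [hM]; push_cast; rfl
      have e4 : ((z : ℕ) : ℝ) = if Even (n + t) then 0 else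
          max (gauss q n ((n + t) / 2) : ℝ) (((r + 1 : ℕ) : ℝ) *
            (gauss q (n - 1) ((n + t) / 2) : ℝ)) := by
        rw [hz]
        split_ifs
        · simp
        · rw [Nat.cast_max, Nat.cast_mul]
      rw [← e2, ← e3, ← e4] at h1
      have h2 : ((∑ i, (A i).ncard : ℕ) : ℝ) ≤
          ((max (S + (r + 1 - 1)) ((r + 1) * M + z) : ℕ) : ℝ) := by
        rw [Nat.cast_max]
        push_cast at h1 ⊢
        refine h1.trans (le_of_eq ?_)
        congr 2
        ring
      exact_mod_cast h2
    · have ht1' : t = 1 := by omega
      subst ht1'
      have h1 := upper hm (by omega) A hA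
      refine h1.trans (le_trans (le_of_eq ?_) (le_max_right _ _))
      unfold maxSum
      rw [hV, ← hq]
      congr 1
      · rw [hM]
        congr 1
        apply Finset.sum_congr _ fun _ _ => rfl
        ext d
        simp only [H, mem_filter, mem_range, mem_Icc]
        omega
      · rw [hz]
        by_cases he : Even n
        · have he' : ¬ Even (n + 1) := by
            rw [Nat.even_add_one]
            exact not_not.2 he
          rw [if_pos he, if_neg he']
          obtain ⟨k, hk⟩ := he
          have e1 : (n + 1) / 2 = k := by omega
          have e2 : n / 2 = k := by omega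
          rw [e1, e2]
          congr 2
          -- the number of subspaces of a hyperplane
          have hQ : Q K = (q : ℝ) := by unfold Q; rw [hq]
          have h2 := G_hyper K n k (by omega)
          have e3 : n - k = k := by omega
          rw [e3] at h2
          have e4 : Q K ^ n = Q K ^ k * Q K ^ k := by
            rw [← pow_add]; congr 1
          have h3 : 0 < Q K ^ k - 1 :=
            sub_pos.2 (one_lt_pow₀ (by have := Q_two K; linarith) (by omega))
          have h4 : G K n k = G K (n - 1) k * (Q K ^ k + 1) := by
            apply mul_right_cancel₀ h3.ne'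
            rw [h2, e4]
            ring
          have h5 : gauss q n k = gauss q (n - 1) k * (q ^ k + 1) := by
            have h6 : ((gauss q n k : ℕ) : ℝ) = ((gauss q (n - 1) k * (q ^ k + 1) : ℕ) : ℝ) := by
              push_cast
              rw [← hQ]
              unfold G at h4
              rw [← hq] at h4
              exact h4
            exact_mod_cast h6
          rw [h5, Nat.mul_div_cancel _ (by positivity)]
        · have he' : Even (n + 1) := by
            rw [Nat.even_add_one]
            exact he
          rw [if_neg he, if_pos he']

end Pool.Agent.Results.MP_f86d1f_co.AllParameters
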